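import Pool.Agent.Helper13.HE.St

/-!
# Project HE (MP_a1f43d_co): module SIV (the sieve)
-/

set_option autoImplicit false

open Module Classical
open scoped LinearAlgebra.Projectivization

namespace Pool.Agent.Helper54.HE

open Pool.Agent.Helper13.HE Pool.Agent.Helper53.PB

universe u v

variable {F : Type u} {V : Type v} [Field F] [AddCommGroup V] [Module F V]

private theorem mem_pe' [Fintype V] (Q : QuadraticForm F V) (K : Submodule F V) (u : V) :
    u ∈ pe Q K ↔ ∀ x ∈ K, QuadraticMap.polar Q u x = 0 := by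
  simp [pe]

private theorem pe_sup [Fintype V] (Q : QuadraticForm F V) (K : Submodule F V) (u r : V) :
    u ∈ pe Q (K ⊔ Submodule.span F {r}) ↔ u ∈ pe Q K ∧ QuadraticMap.polar Q u r = 0 := by
  rw [mem_pe', mem_pe']
  constructor
  · intro h
    exact ⟨fun x hx => h x (Submodule.mem_sup_left hx),
      h r (Submodule.mem_sup_right (Submodule.mem_span_singleton_self r))⟩
  · rintro ⟨h1, h2⟩ x hx
    obtain ⟨y, hy, z, hz, rfl⟩ := Submodule.mem_sup.1 hx
    obtain ⟨c, rfl⟩ := Submodule.mem_span_singleton.1 hz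
    rw [QuadraticMap.polar_add_right, QuadraticMap.polar_smul_right, h1 y hy, h2]
    simp

private theorem pe_span [Fintype V] (Q : QuadraticForm F V) (u r : V) :
    u ∈ pe Q (Submodule.span F {r}) ↔ QuadraticMap.polar Q u r = 0 := by
  rw [mem_pe']
  constructor
  · intro h
    exact h r (Submodule.mem_span_singleton_self r)
  · intro h2 x hx
    obtain ⟨c, rfl⟩ := Submodule.mem_span_singleton.1 hx
    rw [QuadraticMap.polar_smul_right, h2]
    simp

private theorem fr_sup [FiniteDimensional F V] (K : Submodule F V) (r : V) (hr : r ∉ K) :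
    finrank F (K ⊔ Submodule.span F {r} : Submodule F V) = finrank F K + 1 := by
  have hr0 : r ≠ 0 := fun h => hr (h ▸ K.zero_mem)
  have h := Submodule.finrank_sup_add_finrank_inf_eq K (Submodule.span F {r})
  have hd : Disjoint K (Submodule.span F {r}) := (Submodule.disjoint_span_singleton' hr0).2 hr
  rw [hd.eq_bot, finrank_bot, finrank_span_singleton hr0] at h
  omega

private theorem rep_notMem {R R' : ℙ F V} (h : R ≠ R') : R'.rep ∉ Submodule.span F {R.rep} := by
  intro hm
  obtain ⟨c, hc⟩ := Submodule.mem_span_singleton.1 hm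
  apply h
  rw [← R.mk_rep, ← R'.mk_rep]
  symm
  rw [Projectivization.mk_eq_mk_iff']
  exact ⟨c, hc⟩

private theorem fr_two [FiniteDimensional F V] {R R' : ℙ F V} (h : R ≠ R') :
    finrank F (Submodule.span F {R.rep} ⊔ Submodule.span F {R'.rep} : Submodule F V) = 2 := by
  rw [fr_sup _ _ (rep_notMem h), finrank_span_singleton R.rep_nonzero]

/-- Pascal -/
private theorem pascal (f : ℕ → ℤ) (k M : ℕ) (h : f M = 0) :
    ∑ i ∈ Finset.range M, ((k + 1).choose i : ℤ) * f i =
      ∑ i ∈ Finset.range M, (k.choose i : ℤ) * f i +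
      ∑ i ∈ Finset.range M, (k.choose i : ℤ) * f (i + 1) := by
  have e1 : ∀ l : ℕ, ∑ i ∈ Finset.range M, (l.choose i : ℤ) * f i =
      f 0 + ∑ i ∈ Finset.range M, (l.choose (i + 1) : ℤ) * f (i + 1) := by
    intro l
    have h1 := Finset.sum_range_succ (fun i => (l.choose i : ℤ) * f i) M
    have h2 := Finset.sum_range_succ' (fun i => (l.choose i : ℤ) * f i) M
    rw [h, mul_zero, add_zero] at h1
    rw [h1] at h2
    rw [h2]
    simp
    ring
  rw [e1 (k + 1), e1 k, add_assoc, ← Finset.sum_add_distrib]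
  congr 1
  refine Finset.sum_congr rfl (fun i _ => ?_)
  rw [Nat.choose_succ_succ]
  push_cast
  ring

/-- the numbers `β s k` -/
private noncomputable def Bt (ws wb : ℕ → ℤ) (M s k : ℕ) : ℤ :=
  ∑ i ∈ Finset.range M, (k.choose i : ℤ) * (ws (s + i) + wb (s + i + 1))

private noncomputable def Ct (ws wb : ℕ → ℤ) (M k : ℕ) : ℤ :=
  ∑ i ∈ Finset.range M, (k.choose (i + 1) : ℤ) * ws (i + 2) +
  ∑ i ∈ Finset.range M, (k.choose i : ℤ) * wb (i + 2)

private noncomputable def Gt (ws wb : ℕ → ℤ) (M k : ℕ) : ℤ :=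
  ∑ i ∈ Finset.range M, (k.choose (i + 2) : ℤ) * ws (i + 2) +
  ∑ i ∈ Finset.range M, (k.choose (i + 1) : ℤ) * wb (i + 2)

private theorem Bt_nonneg (ws wb : ℕ → ℤ) (M s k : ℕ) (h1 : ∀ s, 0 ≤ ws s) (h2 : ∀ s, 0 ≤ wb s) :
    0 ≤ Bt ws wb M s k :=
  Finset.sum_nonneg (fun i _ => mul_nonneg (by positivity) (add_nonneg (h1 _) (h2 _)))

private theorem Bt_zero (ws wb : ℕ → ℤ) (M s : ℕ) (hM : 1 ≤ M) :
    Bt ws wb M s 0 = ws s + wb (s + 1) := by
  obtain ⟨m, rfl⟩ : ∃ m, M = m + 1 := ⟨M - 1, by omega⟩
  unfold Bt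
  rw [Finset.sum_range_succ']
  simp

private theorem Bt_succ (ws wb : ℕ → ℤ) (M N s k : ℕ) (hM : N < M)
    (h : ∀ s, N < s → ws s = 0 ∧ wb s = 0) :
    Bt ws wb M s (k + 1) = Bt ws wb M s k + Bt ws wb M (s + 1) k := by
  unfold Bt
  rw [pascal (fun i => ws (s + i) + wb (s + i + 1)) k M
    (by rw [(h (s + M) (by omega)).1, (h (s + M + 1) (by omega)).2, add_zero])]
  congr 1
  refine Finset.sum_congr rfl (fun i _ => ?_)
  rw [show s + (i + 1) = s + 1 + i by ring]

private theorem Ct_zero (ws wb : ℕ → ℤ) (M : ℕ) (hM : 1 ≤ M) : Ct ws wb M 0 = wb 2 := by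
  obtain ⟨m, rfl⟩ : ∃ m, M = m + 1 := ⟨M - 1, by omega⟩
  unfold Ct
  rw [Finset.sum_range_succ' (fun i => (Nat.choose 0 i : ℤ) * wb (i + 2))]
  simp

private theorem Ct_succ (ws wb : ℕ → ℤ) (M N k : ℕ) (hM : N < M)
    (h : ∀ s, N < s → ws s = 0 ∧ wb s = 0) :
    Ct ws wb M (k + 1) = Ct ws wb M k + Bt ws wb M 2 k := by
  unfold Ct Bt
  rw [pascal (fun i => wb (i + 2)) k M (h (M + 2) (by omega)).2]
  have e1 : ∑ i ∈ Finset.range M, ((k + 1).choose (i + 1) : ℤ) * ws (i + 2) =
      ∑ i ∈ Finset.range M, (k.choose (i + 1) : ℤ) * ws (i + 2) +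
      ∑ i ∈ Finset.range M, (k.choose i : ℤ) * ws (i + 2) := by
    rw [← Finset.sum_add_distrib]
    refine Finset.sum_congr rfl (fun i _ => ?_)
    rw [Nat.choose_succ_succ]
    push_cast
    ring
  have e2 : ∑ i ∈ Finset.range M, (k.choose i : ℤ) * (ws (2 + i) + wb (2 + i + 1)) =
      ∑ i ∈ Finset.range M, (k.choose i : ℤ) * ws (i + 2) +
      ∑ i ∈ Finset.range M, (k.choose i : ℤ) * wb (i + 1 + 2) := by
    rw [← Finset.sum_add_distrib]
    refine Finset.sum_congr rfl (fun i _ => ?_)
    rw [show 2 + i = i + 2 by ring, show i + 2 + 1 = i + 1 + 2 by ring]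
    ring
  rw [e1, e2]
  ring

private theorem Gt_zero (ws wb : ℕ → ℤ) (M : ℕ) : Gt ws wb M 0 = 0 := by
  unfold Gt
  simp

private theorem Gt_succ (ws wb : ℕ → ℤ) (M k : ℕ) :
    Gt ws wb M (k + 1) = Gt ws wb M k + Ct ws wb M k := by
  unfold Gt Ct
  have e1 : ∑ i ∈ Finset.range M, ((k + 1).choose (i + 2) : ℤ) * ws (i + 2) =
      ∑ i ∈ Finset.range M, (k.choose (i + 2) : ℤ) * ws (i + 2) +
      ∑ i ∈ Finset.range M, (k.choose (i + 1) : ℤ) * ws (i + 2) := by
    rw [← Finset.sum_add_distrib]
    refine Finset.sum_congr rfl (fun i _ => ?_)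
    rw [Nat.choose_succ_succ]
    push_cast
    ring
  have e2 : ∑ i ∈ Finset.range M, ((k + 1).choose (i + 1) : ℤ) * wb (i + 2) =
      ∑ i ∈ Finset.range M, (k.choose (i + 1) : ℤ) * wb (i + 2) +
      ∑ i ∈ Finset.range M, (k.choose i : ℤ) * wb (i + 2) := by
    rw [← Finset.sum_add_distrib]
    refine Finset.sum_congr rfl (fun i _ => ?_)
    rw [Nat.choose_succ_succ]
    push_cast
    ring
  rw [e1, e2]
  ring

private theorem Gt_final (ws wb : ℕ → ℤ) (N k : ℕ) (h : ∀ s, N < s → ws s = 0 ∧ wb s = 0) :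
    Gt ws wb (N + 1) k = ∑ s ∈ Finset.Icc 2 N, ((k.choose s : ℤ) * ws s +
      (k.choose (s - 1) : ℤ) * wb s) := by
  have e1 : Gt ws wb (N + 1) k = ∑ s ∈ Finset.Ico 2 (N + 3), ((k.choose s : ℤ) * ws s +
      (k.choose (s - 1) : ℤ) * wb s) := by
    rw [Finset.sum_Ico_eq_sum_range, show N + 3 - 2 = N + 1 by omega]
    unfold Gt
    rw [← Finset.sum_add_distrib]
    refine Finset.sum_congr rfl (fun i _ => ?_)
    rw [show 2 + i = i + 2 by ring, show i + 2 - 1 = i + 1 by omega]
  rw [e1]
  symm
  refine Finset.sum_subset ?_ ?_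
  · intro s hs
    rw [Finset.mem_Icc] at hs
    rw [Finset.mem_Ico]
    omega
  · intro s hs1 hs2
    rw [Finset.mem_Ico] at hs1
    rw [Finset.mem_Icc] at hs2
    have : N < s := by omega
    rw [(h s this).1, (h s this).2]
    simp

theorem hSIV : StSIV.{u, v} := by
  intro F _ _ V _ _ _ _ Q H R1 d ws wb N hR1 hws hwb hN hs hb
  set M := N + 1 with hM
  have hM1 : 1 ≤ M := by omega
  have hNM : N < M := by omega
  set bb : V → ℙ F V → F := fun u R => QuadraticMap.polar Q u R.rep with hbb
  -- step 1
  have step1 : ∀ S : Finset (ℙ F V), ∀ K : Submodule F V, 2 ≤ finrank F K →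
      (-1) ^ (finrank F K) * ∑ u ∈ (pe Q K).filter (fun u => bb u R1 ≠ 0 ∧ ∀ R ∈ S, bb u R ≠ 0),
        d u ≤ Bt ws wb M (finrank F K) S.card := by
    intro S
    induction S using Finset.induction_on with
    | empty =>
      intro K hK
      rw [Finset.card_empty, Bt_zero ws wb M _ hM1]
      by_cases hR : R1.rep ∈ K
      · have he : (pe Q K).filter (fun u => bb u R1 ≠ 0 ∧ ∀ R ∈ (∅ : Finset (ℙ F V)),
            bb u R ≠ 0) = ∅ := by
          rw [Finset.filter_eq_empty_iff]
          intro u hu
          have := (mem_pe' Q K u).1 hu R1.rep hR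
          intro h
          exact h.1 this
        rw [he, Finset.sum_empty, mul_zero]
        exact add_nonneg (hws _) (hwb _)
      · have h1 := hs K hK hR
        have hf := fr_sup K R1.rep hR
        have h2 := hb (K ⊔ Submodule.span F {R1.rep}) (by omega)
          (Submodule.mem_sup_right (Submodule.mem_span_singleton_self _))
        rw [hf, pow_succ] at h2
        have he : ∑ u ∈ pe Q K, d u = ∑ u ∈ pe Q (K ⊔ Submodule.span F {R1.rep}), d u +
            ∑ u ∈ (pe Q K).filter (fun u => bb u R1 ≠ 0 ∧ ∀ R ∈ (∅ : Finset (ℙ F V)),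
              bb u R ≠ 0), d u := by
          rw [← Finset.sum_filter_add_sum_filter_not (pe Q K) (fun u => bb u R1 = 0)]
          congr 1
          · refine Finset.sum_congr ?_ (fun _ _ => rfl)
            ext u
            rw [Finset.mem_filter, pe_sup]
          · refine Finset.sum_congr ?_ (fun _ _ => rfl)
            ext u
            simp
        rw [he] at h1
        linarith
    | insert R S hRS ih =>
      intro K hK
      rw [Finset.card_insert_of_notMem hRS, Bt_succ ws wb M N _ _ hNM hN]
      by_cases hR : R.rep ∈ K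
      · have he : (pe Q K).filter (fun u => bb u R1 ≠ 0 ∧ ∀ R' ∈ insert R S,
            bb u R' ≠ 0) = ∅ := by
          rw [Finset.filter_eq_empty_iff]
          intro u hu
          have := (mem_pe' Q K u).1 hu R.rep hR
          intro h
          exact h.2 R (Finset.mem_insert_self _ _) this
        rw [he, Finset.sum_empty, mul_zero]
        exact add_nonneg (Bt_nonneg ws wb M _ _ hws hwb) (Bt_nonneg ws wb M _ _ hws hwb)
      · have hf := fr_sup K R.rep hR
        have h1 := ih K hK
        have h2 := ih (K ⊔ Submodule.span F {R.rep}) (by omega)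
        rw [hf, pow_succ] at h2
        have he : ∑ u ∈ (pe Q K).filter (fun u => bb u R1 ≠ 0 ∧ ∀ R ∈ S, bb u R ≠ 0), d u =
            ∑ u ∈ (pe Q (K ⊔ Submodule.span F {R.rep})).filter
              (fun u => bb u R1 ≠ 0 ∧ ∀ R ∈ S, bb u R ≠ 0), d u +
            ∑ u ∈ (pe Q K).filter (fun u => bb u R1 ≠ 0 ∧ ∀ R' ∈ insert R S, bb u R' ≠ 0),
              d u := by
          rw [← Finset.sum_filter_add_sum_filter_not ((pe Q K).filter
            (fun u => bb u R1 ≠ 0 ∧ ∀ R ∈ S, bb u R ≠ 0)) (fun u => bb u R = 0)]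
          congr 1
          · refine Finset.sum_congr ?_ (fun _ _ => rfl)
            ext u
            rw [Finset.mem_filter, Finset.mem_filter, Finset.mem_filter, pe_sup]
            tauto
          · refine Finset.sum_congr ?_ (fun _ _ => rfl)
            ext u
            rw [Finset.mem_filter, Finset.mem_filter, Finset.mem_filter]
            simp only [Finset.forall_mem_insert]
            tauto
        rw [he] at h1
        linarith
  -- step 2
  have step2 : ∀ S : Finset (ℙ F V), R1 ∉ S → ∀ R : ℙ F V, R ≠ R1 → R ∉ S →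
      ∑ u ∈ (Finset.univ : Finset V).filter (fun u => bb u R = 0 ∧ (bb u R1 = 0 ∨
        ∃ R' ∈ S, bb u R' = 0)), d u ≤ Ct ws wb M S.card := by
    intro S
    induction S using Finset.induction_on with
    | empty =>
      intro _ R hRR _
      rw [Finset.card_empty, Ct_zero ws wb M hM1]
      have hf := fr_two hRR
      have h2 := hb (Submodule.span F {R.rep} ⊔ Submodule.span F {R1.rep}) (by omega)
          (Submodule.mem_sup_right (Submodule.mem_span_singleton_self _))
      rw [hf] at h2
      have he : (Finset.univ : Finset V).filter (fun u => bb u R = 0 ∧ (bb u R1 = 0 ∨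
          ∃ R' ∈ (∅ : Finset (ℙ F V)), bb u R' = 0)) =
          pe Q (Submodule.span F {R.rep} ⊔ Submodule.span F {R1.rep}) := by
        ext u
        rw [pe_sup, pe_span]
        simp [hbb]
      rw [he]
      simpa using h2
    | insert R' S hRS ih =>
      intro hR1S R hRR hRn
      rw [Finset.card_insert_of_notMem hRS, Ct_succ ws wb M N _ hNM hN]
      have hR1S' : R1 ∉ S := fun h => hR1S (Finset.mem_insert_of_mem h)
      have hRn' : R ∉ S := fun h => hRn (Finset.mem_insert_of_mem h)
      have hRR' : R ≠ R' := fun h => hRn (h ▸ Finset.mem_insert_self _ _)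
      have h1 := ih hR1S' R hRR hRn'
      have hf := fr_two hRR'
      have h2 := step1 S (Submodule.span F {R.rep} ⊔ Submodule.span F {R'.rep}) (by omega)
      rw [hf] at h2
      have he : ∑ u ∈ (Finset.univ : Finset V).filter (fun u => bb u R = 0 ∧ (bb u R1 = 0 ∨
          ∃ R'' ∈ insert R' S, bb u R'' = 0)), d u =
          ∑ u ∈ (Finset.univ : Finset V).filter (fun u => bb u R = 0 ∧ (bb u R1 = 0 ∨
            ∃ R' ∈ S, bb u R' = 0)), d u +
          ∑ u ∈ (pe Q (Submodule.span F {R.rep} ⊔ Submodule.span F {R'.rep})).filter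
            (fun u => bb u R1 ≠ 0 ∧ ∀ R ∈ S, bb u R ≠ 0), d u := by
        rw [← Finset.sum_filter_add_sum_filter_not ((Finset.univ : Finset V).filter
          (fun u => bb u R = 0 ∧ (bb u R1 = 0 ∨ ∃ R'' ∈ insert R' S, bb u R'' = 0)))
          (fun u => bb u R1 = 0 ∨ ∃ R' ∈ S, bb u R' = 0)]
        congr 1
        · refine Finset.sum_congr ?_ (fun _ _ => rfl)
          ext u
          simp only [Finset.mem_filter, Finset.mem_univ, true_and, Finset.exists_mem_insert]
          tauto
        · refine Finset.sum_congr ?_ (fun _ _ => rfl)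
          ext u
          rw [Finset.mem_filter, Finset.mem_filter, Finset.mem_filter, pe_sup, pe_span]
          simp only [Finset.mem_univ, true_and, Finset.exists_mem_insert, not_or, not_exists,
            not_and]
          tauto
      rw [he]
      have h3 : ∑ u ∈ (pe Q (Submodule.span F {R.rep} ⊔ Submodule.span F {R'.rep})).filter
            (fun u => bb u R1 ≠ 0 ∧ ∀ R ∈ S, bb u R ≠ 0), d u ≤ Bt ws wb M 2 S.card := by
        simpa using h2
      linarith
  -- step 3
  have step3 : ∀ S : Finset (ℙ F V), R1 ∉ S →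
      ∑ u : V, ((((insert R1 S).filter (fun R => bb u R = 0)).card - 1 : ℕ) : ℤ) * d u ≤
        Gt ws wb M S.card := by
    intro S
    induction S using Finset.induction_on with
    | empty =>
      intro _
      rw [Finset.card_empty, Gt_zero]
      refine le_of_eq (Finset.sum_eq_zero (fun u _ => ?_))
      have : ((insert R1 (∅ : Finset (ℙ F V))).filter (fun R => bb u R = 0)).card ≤ 1 := by
        refine (Finset.card_filter_le _ _).trans ?_
        simp
      have h0 : ((insert R1 (∅ : Finset (ℙ F V))).filter (fun R => bb u R = 0)).card - 1 = 0 := by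
        omega
      rw [h0]
      simp
    | insert R S hRS ih =>
      intro hR1S
      have hR1S' : R1 ∉ S := fun h => hR1S (Finset.mem_insert_of_mem h)
      have hRR : R ≠ R1 := fun h => hR1S (h ▸ Finset.mem_insert_self _ _)
      rw [Finset.card_insert_of_notMem hRS, Gt_succ]
      have h1 := ih hR1S'
      have h2 := step2 S hR1S' R hRR hRS
      have he : ∑ u : V, ((((insert R1 (insert R S)).filter (fun R => bb u R = 0)).card - 1 : ℕ)
          : ℤ) * d u =
          ∑ u : V, ((((insert R1 S).filter (fun R => bb u R = 0)).card - 1 : ℕ) : ℤ) * d u +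
          ∑ u ∈ (Finset.univ : Finset V).filter (fun u => bb u R = 0 ∧ (bb u R1 = 0 ∨
            ∃ R' ∈ S, bb u R' = 0)), d u := by
        rw [Finset.sum_filter, ← Finset.sum_add_distrib]
        refine Finset.sum_congr rfl (fun u _ => ?_)
        have hins : insert R1 (insert R S) = insert R (insert R1 S) := Finset.insert_comm _ _ _
        have hnot : R ∉ insert R1 S := by
          rw [Finset.mem_insert]
          rintro (h | h)
          · exact hRR h
          · exact hRS h
        rw [hins, Finset.filter_insert]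
        by_cases hbR : bb u R = 0
        · rw [if_pos hbR, Finset.card_insert_of_notMem
            (fun h => hnot (Finset.mem_of_mem_filter _ h))]
          by_cases hex : bb u R1 = 0 ∨ ∃ R' ∈ S, bb u R' = 0
          · rw [if_pos ⟨hbR, hex⟩]
            have hpos : 1 ≤ ((insert R1 S).filter (fun R => bb u R = 0)).card := by
              rw [Nat.one_le_iff_ne_zero, Finset.card_ne_zero]
              rcases hex with h | ⟨R', hR', h⟩
              · exact ⟨R1, Finset.mem_filter.2 ⟨Finset.mem_insert_self _ _, h⟩⟩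
              · exact ⟨R', Finset.mem_filter.2 ⟨Finset.mem_insert_of_mem hR', h⟩⟩
            obtain ⟨c, hc⟩ : ∃ c, ((insert R1 S).filter (fun R => bb u R = 0)).card = c + 1 :=
              ⟨_, (Nat.sub_add_cancel hpos).symm⟩
            rw [hc]
            simp only [Nat.add_sub_cancel]
            push_cast
            ring
          · rw [if_neg (fun h => hex h.2)]
            have hz : ((insert R1 S).filter (fun R => bb u R = 0)).card = 0 := by
              rw [Finset.card_eq_zero, Finset.filter_eq_empty_iff]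
              intro R' hR' h
              rcases Finset.mem_insert.1 hR' with h' | h'
              · exact hex (Or.inl (h' ▸ h))
              · exact hex (Or.inr ⟨R', h', h⟩)
            rw [hz]
            simp
        · rw [if_neg hbR, if_neg (fun h => hbR h.1), add_zero]
      rw [he]
      linarith
  have h4 := step3 (H.erase R1) (Finset.notMem_erase _ _)
  rw [Finset.insert_erase hR1, Finset.card_erase_of_mem hR1, hM, Gt_final ws wb N _ hN] at h4
  exact h4

end Pool.Agent.Helper54.HE
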